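import Mathlib
import Pool.Agent.Helper54.QDelannoy

set_option autoImplicit false

namespace Pool.Agent.Results.MP_870110_co.QDelannoyPositivity

open Finset

/-- The Gaussian binomial coefficient at an element `q` of a field, by the product formula for
`k ≤ n`, and `0` for `k > n`. -/
noncomputable def gauss {K : Type*} [Field K] (q : K) (n k : ℕ) : K :=
  if k ≤ n then ∏ i ∈ range k, (1 - q ^ (n - k + (i + 1))) / (1 - q ^ (i + 1)) else 0

/-- The `q`-Delannoy number `D_q(m,n)`. -/
noncomputable def delannoy {K : Type*} [Field K] (q : K) (m n : ℕ) : K :=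
  ∑ k ∈ range (n + 1), q ^ (k * (k - 1) / 2) * gauss q n k * gauss q (n + m - k) n

/-- `P_k = D_q(m,k) D_{1/q}(m,k)`. -/
noncomputable def prodP {K : Type*} [Field K] (q : K) (m k : ℕ) : K :=
  delannoy q m k * delannoy q⁻¹ m k

/-- The expression `A` of the problem. -/
noncomputable def exprA {K : Type*} [Field K] (q : K) (m n : ℕ) : K :=
  (1 - q ^ m) * (1 - q ^ (m + 1)) / ((1 - q ^ 2) * (1 - q ^ n) ^ 2) *
    ∑ k ∈ range n, (1 - q ^ (2 * k + 1)) * (q ^ k)⁻¹ * prodP q m k

/-- The expression `B` of the problem. -/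
noncomputable def exprB {K : Type*} [Field K] (q : K) (m n r : ℕ) : K :=
  1 / (1 - q ^ n) * ∑ k ∈ range n, (1 - q ^ (2 * k + 1)) * (q ^ k)⁻¹ * prodP q m k ^ r

/-- The expression `C` of the problem. -/
noncomputable def exprC {K : Type*} [Field K] (q : K) (m n r : ℕ) : K :=
  1 / (1 - q ^ n) * ∑ k ∈ range n, (-1) ^ (n - 1 - k) * (1 - q ^ (2 * k + 1)) *
    q ^ (k * (k - 1) / 2) * prodP q m k ^ r

/-- `f` is a Laurent polynomial in the indeterminate `X` all of whose coefficients are
nonnegative integers: `f = p(X) / X ^ N` with `p` a polynomial over the natural numbers. -/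
def IsNonnegLaurent (f : RatFunc ℚ) : Prop :=
  ∃ (N : ℕ) (p : Polynomial ℕ),
    f * RatFunc.X ^ N = algebraMap (Polynomial ℚ) (RatFunc ℚ) (p.map (Nat.castRingHom ℚ))

/-- For all positive integers `m, n, r`, each of `A`, `B`, `C` is a Laurent polynomial in the
indeterminate `q = X` with nonnegative integer coefficients. -/
theorem result : ∀ m n r : ℕ, 0 < m → 0 < n → 0 < r →
    IsNonnegLaurent (exprA (RatFunc.X : RatFunc ℚ) m n) ∧
    IsNonnegLaurent (exprB (RatFunc.X : RatFunc ℚ) m n r) ∧
    IsNonnegLaurent (exprC (RatFunc.X : RatFunc ℚ) m n r) :=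
  Pool.Agent.Helper54.QDelannoy.main

end Pool.Agent.Results.MP_870110_co.QDelannoyPositivity
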